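import Pool.Agent.Helper40.TWM.Stmts
import Pool.Agent.Helper41.TWR.Joi

/-!
Sheet TWM (MP_7a8f48_an), row MLA: ergodic joinings of the powers of a tower.
-/

set_option linter.unusedSectionVars false

open MeasureTheory Filter Topology Finset
open scoped ComplexConjugate

namespace Pool.Agent.Helper41.TWM

open Pool.Agent.Helper98.TW
open Pool.Agent.Helper40.TWM
open Pool.Agent.Helper16.AZ (T E Op mm)
open Pool.Agent.Helper16.BZ (co Wk EE)
open Pool.Agent.Helper40.DZ (UR SK aesm_of_ae)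
open Pool.Agent.Helper40.JZ (LM ST_LMF)
open Pool.Agent.Helper41.TWR (mp1 mp2 lm_BB)
open Pool.Agent.Helper73.TWR

/-- the integral of the norm -/
theorem int_norm_le_sqrt {Ω : Type} [MeasurableSpace Ω] {μ : Measure Ω} [IsProbabilityMeasure μ]
    {X : Ω → ℂ} (hX : MemLp X 2 μ) : ∫ x, ‖X x‖ ∂μ ≤ √(∫ x, ‖X x‖ ^ 2 ∂μ) := by
  have h1 : Integrable (fun x => ‖X x‖) μ := (hX.integrable (by norm_num)).norm
  have h2 : Integrable (fun x => ‖X x‖ ^ 2) μ := hX.integrable_norm_pow (by norm_num)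
  obtain ⟨t, ht⟩ : ∃ t : ℝ, t = ∫ x, ‖X x‖ ∂μ := ⟨_, rfl⟩
  have h3 : 0 ≤ ∫ x, (‖X x‖ - t) ^ 2 ∂μ := integral_nonneg fun x => sq_nonneg _
  have h4 : ∫ x, (‖X x‖ - t) ^ 2 ∂μ = ∫ x, ‖X x‖ ^ 2 ∂μ - t ^ 2 := by
    have e : (fun x => (‖X x‖ - t) ^ 2) = fun x => (‖X x‖ ^ 2 - (2 * t) * ‖X x‖) + t ^ 2 := by
      funext x
      ring
    have j1 : Integrable (fun x => (2 * t) * ‖X x‖) μ := h1.const_mul _
    have j2 : Integrable (fun x => ‖X x‖ ^ 2 - (2 * t) * ‖X x‖) μ := h2.sub j1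
    rw [e, integral_add j2 (integrable_const _),
      integral_sub h2 j1, integral_const_mul, integral_const, ← ht]
    simp only [probReal_univ, one_smul]
    ring
  rw [← ht]
  apply Real.le_sqrt_of_sq_le
  linarith

section joi

variable {N : ℕ} {f f' : Fin N → T N → U} {p q : ℕ} {κ : Measure (T N × T N)}
  {F G G' : T N → ℂ} {V : ℝ}

theorem inner_JJ (hJ : JN f p q κ) (hF : MemLp F 2 (mm N)) (hG : AEStronglyMeasurable G (mm N))
    (hV0 : 0 ≤ V) (hV : ∀ᵐ x ∂(mm N), ‖G x‖ ≤ V) :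
    ‖∫ z, F z.1 * conj (G z.2) ∂κ‖ ≤ V * √(JJ κ F) := by
  have hP := hJ.prob
  have hF1 : MemLp (fun z : T N × T N => F z.1) 2 κ := hF.comp_measurePreserving (mp1 hJ)
  have hGab : AB (mm N) (fun x => conj (G x)) := AB.conj ⟨hG, V, hV⟩
  have hG2 : AB κ (fun z : T N × T N => conj (G z.2)) := hGab.comp (mp2 hJ)
  have hGA : AM κ (BB N) (fun z : T N × T N => conj (G z.2)) :=
    Pool.Agent.Helper53.TWR.am_cm (mp2 hJ) hGab.1
  have hE2 : MemLp (κ[fun z : T N × T N => F z.1|BB N]) 2 κ := ce_memLp hF1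
  have e : ∫ z, F z.1 * conj (G z.2) ∂κ =
      ∫ z, conj (G z.2) * (κ[fun z : T N × T N => F z.1|BB N]) z ∂κ := by
    rw [int_ce lm_BB hGA hG2 (hF1.integrable (by norm_num))]
    exact integral_congr_ae (Eventually.of_forall fun z => mul_comm _ _)
  rw [e]
  calc ‖∫ z, conj (G z.2) * (κ[fun z : T N × T N => F z.1|BB N]) z ∂κ‖
      ≤ ∫ z, ‖conj (G z.2) * (κ[fun z : T N × T N => F z.1|BB N]) z‖ ∂κ :=
        norm_integral_le_integral_norm _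
    _ ≤ ∫ z, V * ‖(κ[fun z : T N × T N => F z.1|BB N]) z‖ ∂κ := by
        refine integral_mono_ae ?_ ?_ ?_
        · exact (hG2.int_mul (hE2.integrable (by norm_num))).norm
        · exact (hE2.integrable (by norm_num)).norm.const_mul V
        · filter_upwards [(mp2 hJ).quasiMeasurePreserving.ae hV] with z hz
          rw [norm_mul, RCLike.norm_conj]
          exact mul_le_mul_of_nonneg_right hz (norm_nonneg _)
    _ = V * ∫ z, ‖(κ[fun z : T N × T N => F z.1|BB N]) z‖ ∂κ := integral_const_mul _ _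
    _ ≤ V * √(JJ κ F) := mul_le_mul_of_nonneg_left (int_norm_le_sqrt hE2) hV0

theorem inner_L2 (hJ : JN f p q κ) (hF : MemLp F 2 (mm N)) (hG : AEStronglyMeasurable G (mm N))
    (hV0 : 0 ≤ V) (hV : ∀ᵐ x ∂(mm N), ‖G x‖ ≤ V) :
    ‖∫ z, F z.1 * conj (G z.2) ∂κ‖ ≤ V * √(∫ x, ‖F x‖ ^ 2 ∂(mm N)) := by
  have hP := hJ.prob
  have hF1 : MemLp (fun z : T N × T N => F z.1) 2 κ := hF.comp_measurePreserving (mp1 hJ)
  have hGab : AB (mm N) (fun x => conj (G x)) := AB.conj ⟨hG, V, hV⟩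
  have hG2 : AB κ (fun z : T N × T N => conj (G z.2)) := hGab.comp (mp2 hJ)
  calc ‖∫ z, F z.1 * conj (G z.2) ∂κ‖
      ≤ ∫ z, ‖F z.1 * conj (G z.2)‖ ∂κ := norm_integral_le_integral_norm _
    _ ≤ ∫ z, V * ‖F z.1‖ ∂κ := by
        refine integral_mono_ae ?_ ?_ ?_
        · refine ((hG2.int_mul (hF1.integrable (by norm_num))).congr
            (Eventually.of_forall fun z => ?_)).norm
          exact mul_comm _ _
        · exact (hF1.integrable (by norm_num)).norm.const_mul V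
        · filter_upwards [(mp2 hJ).quasiMeasurePreserving.ae hV] with z hz
          rw [norm_mul, RCLike.norm_conj, mul_comm]
          exact mul_le_mul_of_nonneg_right hz (norm_nonneg _)
    _ = V * ∫ z, ‖F z.1‖ ∂κ := integral_const_mul _ _
    _ = V * ∫ x, ‖F x‖ ∂(mm N) := by
        have hm : AEStronglyMeasurable (fun x => ‖F x‖) (κ.map Prod.fst) := by
          rw [hJ.fst]
          exact hF.1.norm
        rw [← hJ.fst, integral_map measurable_fst.aemeasurable hm]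
    _ ≤ V * √(∫ x, ‖F x‖ ^ 2 ∂(mm N)) := mul_le_mul_of_nonneg_left (int_norm_le_sqrt hF) hV0

/-- the correlations of two bounded functions -/
theorem corr (hJ : JN f p q κ) {C : SA (T N)} (hC : Lm C) {ε : ℝ} (hε : 0 ≤ ε)
    (hE : ∀ F : T N → ℂ, Measurable F → MemLp F 2 (mm N) → (mm N)[F|C] =ᵐ[mm N] 0 →
      JJ κ F ≤ ε * ∫ x, ‖F x‖ ^ 2 ∂(mm N))
    (hG : AEStronglyMeasurable G (mm N)) (hG' : AEStronglyMeasurable G' (mm N)) (hV0 : 0 ≤ V)
    (hV : ∀ x, ‖G x‖ ≤ V) (hV' : ∀ x, ‖G' x‖ ≤ V) :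
    ‖∫ z, G z.1 * conj (G' z.2) ∂κ‖ ≤ ‖∫ x, G x ∂(mm N)‖ * ‖∫ x, G' x ∂(mm N)‖ +
      V * √(ε * V ^ 2) + V * √(∫ x, ‖((mm N)[G|C]) x - ∫ y, G y ∂(mm N)‖ ^ 2 ∂(mm N)) := by
  have hP := hJ.prob
  have hGab : AB (mm N) G := ⟨hG, V, Eventually.of_forall hV⟩
  have hGab' : AB (mm N) G' := ⟨hG', V, Eventually.of_forall hV'⟩
  obtain ⟨G₀, hG₀, hGe⟩ := exists_bf (μ := mm N) hG (Eventually.of_forall hV)
  obtain ⟨m, hm⟩ : ∃ m : ℂ, m = ∫ x, G x ∂(mm N) := ⟨_, rfl⟩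
  have hEab : AB (mm N) ((mm N)[G|C]) := hGab.ce hC
  obtain ⟨F1, hF1⟩ : ∃ F1 : T N → ℂ, F1 = fun x => G₀ x - ((mm N)[G|C]) x := ⟨_, rfl⟩
  obtain ⟨F2, hF2⟩ : ∃ F2 : T N → ℂ, F2 = fun x => ((mm N)[G|C]) x - m := ⟨_, rfl⟩
  have hF1ab : AB (mm N) F1 := by
    rw [hF1]
    exact hG₀.ab.sub hEab
  have hF2ab : AB (mm N) F2 := by
    rw [hF2]
    exact hEab.sub (ab_const m)
  have hF1m : Measurable F1 := by
    rw [hF1]
    exact hG₀.1.sub (ce_meas hC)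
  have hF1z : (mm N)[F1|C] =ᵐ[mm N] 0 := by
    rw [hF1]
    have h1 := ce_sub (μ := mm N) (𝒜 := C) hG₀.ab.int hEab.int
    have h2 : (mm N)[G₀|C] =ᵐ[mm N] (mm N)[G|C] := ce_congr hGe
    have h3 : (mm N)[(mm N)[G|C]|C] =ᵐ[mm N] (mm N)[G|C] := ce_of_am hC hEab.int ce_am
    filter_upwards [h1, h2, h3] with x x1 x2 x3
    rw [x1, x2, x3, sub_self]
    rfl
  have hF1s : ∫ x, ‖F1 x‖ ^ 2 ∂(mm N) ≤ V ^ 2 := by
    have h1 : ∫ x, ‖F1 x‖ ^ 2 ∂(mm N) = ∫ x, ‖G x - ((mm N)[G|C]) x‖ ^ 2 ∂(mm N) := by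
      refine integral_congr_ae ?_
      filter_upwards [hGe] with x hx
      rw [hF1]
      show ‖G₀ x - _‖ ^ 2 = _
      rw [hx]
    have h2 := sub_ce_sq (μ := mm N) hC hGab.memLp
    have h3 : ∫ x, ‖G x‖ ^ 2 ∂(mm N) ≤ ∫ _, V ^ 2 ∂(mm N) := by
      refine integral_mono_of_nonneg (Eventually.of_forall fun x => sq_nonneg _)
        (integrable_const _) (Eventually.of_forall fun x => ?_)
      exact pow_le_pow_left₀ (norm_nonneg _) (hV x) 2
    rw [integral_const, probReal_univ, one_smul] at h3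
    rw [h1]
    exact h2.trans h3
  -- the three terms
  have hG2 : AB κ (fun z : T N × T N => conj (G' z.2)) := (hGab'.conj).comp (mp2 hJ)
  have e : ∫ z, G z.1 * conj (G' z.2) ∂κ = (∫ z, F1 z.1 * conj (G' z.2) ∂κ +
      ∫ z, F2 z.1 * conj (G' z.2) ∂κ) + m * conj (∫ x, G' x ∂(mm N)) := by
    have i1 : Integrable (fun z : T N × T N => F1 z.1 * conj (G' z.2)) κ :=
      ((hF1ab.comp (mp1 hJ)).mul hG2).int
    have i2 : Integrable (fun z : T N × T N => F2 z.1 * conj (G' z.2)) κ :=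
      ((hF2ab.comp (mp1 hJ)).mul hG2).int
    have i3 : Integrable (fun z : T N × T N => m * conj (G' z.2)) κ := hG2.int.const_mul m
    have e1 : ∫ z, m * conj (G' z.2) ∂κ = m * conj (∫ x, G' x ∂(mm N)) := by
      rw [integral_const_mul, integral_conj]
      have hm1 : AEStronglyMeasurable G' (κ.map Prod.snd) := by
        rw [hJ.snd]
        exact hG'
      rw [← hJ.snd, integral_map measurable_snd.aemeasurable hm1]
    have i12 : Integrable (fun z : T N × T N => F1 z.1 * conj (G' z.2) +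
        F2 z.1 * conj (G' z.2)) κ := i1.add i2
    rw [← e1, ← integral_add i1 i2, ← integral_add i12 i3]
    refine integral_congr_ae ?_
    filter_upwards [(mp1 hJ).quasiMeasurePreserving.ae hGe] with z hz
    rw [hF1, hF2]
    show G z.1 * conj (G' z.2) = ((G₀ z.1 - _) * _ + _ * _) + m * _
    rw [hz]
    ring
  rw [e]
  have b1 : ‖∫ z, F1 z.1 * conj (G' z.2) ∂κ‖ ≤ V * √(ε * V ^ 2) := by
    refine (inner_JJ hJ hF1ab.memLp hG' hV0 (Eventually.of_forall hV')).trans ?_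
    refine mul_le_mul_of_nonneg_left (Real.sqrt_le_sqrt ?_) hV0
    exact (hE F1 hF1m hF1ab.memLp hF1z).trans (mul_le_mul_of_nonneg_left hF1s hε)
  have b2 : ‖∫ z, F2 z.1 * conj (G' z.2) ∂κ‖ ≤
      V * √(∫ x, ‖((mm N)[G|C]) x - m‖ ^ 2 ∂(mm N)) := by
    have h := inner_L2 hJ hF2ab.memLp hG' hV0 (Eventually.of_forall hV')
    rw [hF2] at h ⊢
    exact h
  have b3 : ‖m * conj (∫ x, G' x ∂(mm N))‖ = ‖m‖ * ‖∫ x, G' x ∂(mm N)‖ := by
    rw [norm_mul, RCLike.norm_conj]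
  rw [← hm]
  calc _ ≤ ‖∫ z, F1 z.1 * conj (G' z.2) ∂κ + ∫ z, F2 z.1 * conj (G' z.2) ∂κ‖ +
        ‖m * conj (∫ x, G' x ∂(mm N))‖ := norm_add_le _ _
    _ ≤ (‖∫ z, F1 z.1 * conj (G' z.2) ∂κ‖ + ‖∫ z, F2 z.1 * conj (G' z.2) ∂κ‖) +
        ‖m * conj (∫ x, G' x ∂(mm N))‖ := by
        gcongr
        exact norm_add_le _ _
    _ ≤ _ := by
        rw [b3]
        linarith

end joi

/-- double sums -/
theorem dsum (H : ℕ) (F : ℕ → ℕ → ℝ) : ∑ h ∈ range H, ∑ h' ∈ range H, F h h' =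
    ∑ x ∈ range H ×ˢ range H, F x.1 x.2 := by
  rw [Finset.sum_product]

/-- Cauchy and Schwarz for the means -/
theorem mean_cs (H : ℕ) {F G : ℕ → ℕ → ℝ} (hF : ∀ h h', 0 ≤ F h h') (hG : ∀ h h', 0 ≤ G h h') :
    (∑ h ∈ range H, ∑ h' ∈ range H, √(F h h') * √(G h h')) / (H : ℝ) ^ 2 ≤
      √((∑ h ∈ range H, ∑ h' ∈ range H, F h h') / (H : ℝ) ^ 2) *
      √((∑ h ∈ range H, ∑ h' ∈ range H, G h h') / (H : ℝ) ^ 2) := by
  rw [dsum, dsum H F, dsum H G, Real.sqrt_div (sum_nonneg fun _ _ => hF _ _),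
    Real.sqrt_div (sum_nonneg fun _ _ => hG _ _), Real.sqrt_sq (Nat.cast_nonneg H),
    div_mul_div_comm, ← sq]
  refine div_le_div_of_nonneg_right ?_ (sq_nonneg _)
  exact Real.sum_sqrt_mul_sqrt_le _ (fun x => hF x.1 x.2) (fun x => hG x.1 x.2)

/-- splitting a mean -/
theorem mean_split {H : ℕ} (hH : (0 : ℝ) < H) (a b : ℕ → ℕ → ℝ) (K V : ℝ) :
    (∑ h ∈ range H, ∑ h' ∈ range H, (a h h' + K + V * b h h')) / (H : ℝ) ^ 2 =
      (∑ h ∈ range H, ∑ h' ∈ range H, a h h') / (H : ℝ) ^ 2 + K +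
        V * ((∑ h ∈ range H, ∑ h' ∈ range H, b h h') / (H : ℝ) ^ 2) := by
  have h1 : ∑ h ∈ range H, ∑ h' ∈ range H, (a h h' + K + V * b h h') =
      ∑ h ∈ range H, ∑ h' ∈ range H, a h h' + (H : ℝ) ^ 2 * K +
        V * ∑ h ∈ range H, ∑ h' ∈ range H, b h h' := by
    simp only [sum_add_distrib, ← mul_sum, sum_const, card_range, nsmul_eq_mul]
    ring
  rw [h1]
  field_simp

theorem ae_aesm {Ω : Type} [MeasurableSpace Ω] {μ : Measure Ω} [IsProbabilityMeasure μ]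
    {S S' : Ω → Ω} {d : ℕ} {φ : Ω → Op d} {c : Ω → E d} (hS : Sys μ S S')
    (hφ : AEStronglyMeasurable φ μ) (hc : AEStronglyMeasurable c μ) (k k' : ℕ) :
    AEStronglyMeasurable (EE S φ c k k') μ := by
  have hSi : ∀ k, MeasurePreserving S^[k] μ μ := fun k => hS.mp.iterate k
  have hco : ∀ k, AEStronglyMeasurable (co S φ k) μ := by
    intro k
    induction k with
    | zero => exact aestronglyMeasurable_const
    | succ k ih => exact (hφ.comp_measurePreserving (hSi k)).mul ih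
  have hW : ∀ k, AEStronglyMeasurable (Wk S φ k c) μ := by
    intro k
    have h1 : AEStronglyMeasurable (fun x => star (co S φ k x)) μ :=
      (ContinuousLinearMap.adjoint : Op d ≃ₗᵢ⋆[ℂ] Op d).continuous.comp_aestronglyMeasurable
        (hco k)
    exact (isBoundedBilinearMap_apply (𝕜 := ℂ) (E := E d)
      (F := E d)).continuous.comp_aestronglyMeasurable
        (h1.prodMk (hc.comp_measurePreserving (hSi k)))
  exact (hW k).inner (hW k')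

/-- the estimate for fixed `H` -/
theorem aH_le {N : ℕ} {f : Fin N → T N → U} {p q : ℕ} {κ : Measure (T N × T N)}
    (hJ : JN f p q κ) {S' : T N → T N} (hS : Sys (mm N) (SS f) S') {C : SA (T N)} (hC : Lm C)
    {ε : ℝ} (hε : 0 ≤ ε)
    (hE : ∀ F : T N → ℂ, Measurable F → MemLp F 2 (mm N) → (mm N)[F|C] =ᵐ[mm N] 0 →
      JJ κ F ≤ ε * ∫ x, ‖F x‖ ^ 2 ∂(mm N)) {d : ℕ} {φ : T N → Op d} {c : T N → E d}
    (hφ : AEStronglyMeasurable φ (mm N)) (hu : ∀ x, φ x ∈ unitary (Op d))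
    (hc : AEStronglyMeasurable c (mm N)) {B : ℝ} (hB : ∀ x, ‖c x‖ ≤ B)
    (hN : ∀ k k', NK (mm N) (SS f) φ c k k' ≤ NC (mm N) C (SS f) φ c k k' ∧
      NC (mm N) C (SS f) φ c k k' - NK (mm N) (SS f) φ c k k' =
        ∫ x, ‖((mm N)[EE (SS f) φ c k k'|C]) x - ∫ y, EE (SS f) φ c k k' y ∂(mm N)‖ ^ 2 ∂(mm N))
    {H : ℕ} (hH : 1 ≤ H) :
    aH (SS f) φ c p q κ H ≤
      √((∑ h ∈ range H, ∑ h' ∈ range H, NK (mm N) (SS f) φ c (p * h) (p * h')) / (H : ℝ) ^ 2) *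
      √((∑ h ∈ range H, ∑ h' ∈ range H, NK (mm N) (SS f) φ c (q * h) (q * h')) / (H : ℝ) ^ 2) +
      B ^ 2 * √(ε * (B ^ 2) ^ 2) + B ^ 2 *
      √((∑ h ∈ range H, ∑ h' ∈ range H, NC (mm N) C (SS f) φ c (p * h) (p * h')) / (H : ℝ) ^ 2 -
        (∑ h ∈ range H, ∑ h' ∈ range H, NK (mm N) (SS f) φ c (p * h) (p * h')) / (H : ℝ) ^ 2) := by
  have hH0 : (0 : ℝ) < H := by exact_mod_cast hH
  have hE1 : ∀ k k', AEStronglyMeasurable (EE (SS f) φ c k k') (mm N) := ae_aesm hS hφ hc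
  have hEb : ∀ k k' x, ‖EE (SS f) φ c k k' x‖ ≤ B ^ 2 := fun k k' x =>
    Pool.Agent.Helper16.BZ.EE_norm (SS f) φ c hu B hB k k' x
  have hNK0 : ∀ k k', 0 ≤ NK (mm N) (SS f) φ c k k' := fun k k' => sq_nonneg _
  have hD0 : ∀ k k', 0 ≤ NC (mm N) C (SS f) φ c k k' - NK (mm N) (SS f) φ c k k' :=
    fun k k' => sub_nonneg.2 (hN k k').1
  have key : ∀ h h', ‖∫ z, EE (SS f) φ c (p * h) (p * h') z.1 *
      conj (EE (SS f) φ c (q * h) (q * h') z.2) ∂κ‖ ≤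
      √(NK (mm N) (SS f) φ c (p * h) (p * h')) * √(NK (mm N) (SS f) φ c (q * h) (q * h')) +
      B ^ 2 * √(ε * (B ^ 2) ^ 2) + B ^ 2 * (√(NC (mm N) C (SS f) φ c (p * h) (p * h') -
        NK (mm N) (SS f) φ c (p * h) (p * h')) * √1) := by
    intro h h'
    have h1 := corr hJ hC hε hE (hE1 (p * h) (p * h')) (hE1 (q * h) (q * h')) (sq_nonneg B)
      (hEb _ _) (hEb _ _)
    rw [← (hN (p * h) (p * h')).2] at h1
    have e : ∀ k k', √(NK (mm N) (SS f) φ c k k') = ‖∫ x, EE (SS f) φ c k k' x ∂(mm N)‖ :=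
      fun k k' => Real.sqrt_sq (norm_nonneg _)
    rw [e, e, Real.sqrt_one, mul_one]
    exact h1
  have s1 : aH (SS f) φ c p q κ H ≤ (∑ h ∈ range H, ∑ h' ∈ range H,
      (√(NK (mm N) (SS f) φ c (p * h) (p * h')) * √(NK (mm N) (SS f) φ c (q * h) (q * h')) +
      B ^ 2 * √(ε * (B ^ 2) ^ 2) + B ^ 2 * (√(NC (mm N) C (SS f) φ c (p * h) (p * h') -
        NK (mm N) (SS f) φ c (p * h) (p * h')) * √1))) / (H : ℝ) ^ 2 := by
    unfold aH
    refine div_le_div_of_nonneg_right ((Complex.re_le_norm _).trans ?_) (sq_nonneg _)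
    refine (norm_sum_le _ _).trans (sum_le_sum fun h _ => ?_)
    exact (norm_sum_le _ _).trans (sum_le_sum fun h' _ => key h h')
  refine s1.trans ?_
  have s2 : (∑ h ∈ range H, ∑ h' ∈ range H,
      (√(NK (mm N) (SS f) φ c (p * h) (p * h')) * √(NK (mm N) (SS f) φ c (q * h) (q * h')) +
      B ^ 2 * √(ε * (B ^ 2) ^ 2) + B ^ 2 * (√(NC (mm N) C (SS f) φ c (p * h) (p * h') -
        NK (mm N) (SS f) φ c (p * h) (p * h')) * √1))) / (H : ℝ) ^ 2 =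
      (∑ h ∈ range H, ∑ h' ∈ range H,
        √(NK (mm N) (SS f) φ c (p * h) (p * h')) * √(NK (mm N) (SS f) φ c (q * h) (q * h'))) /
        (H : ℝ) ^ 2 + B ^ 2 * √(ε * (B ^ 2) ^ 2) + B ^ 2 * ((∑ h ∈ range H, ∑ h' ∈ range H,
        √(NC (mm N) C (SS f) φ c (p * h) (p * h') - NK (mm N) (SS f) φ c (p * h) (p * h')) *
          √1) / (H : ℝ) ^ 2) := mean_split hH0 _ _ _ _
  rw [s2]
  have c1 := mean_cs H (F := fun h h' => NK (mm N) (SS f) φ c (p * h) (p * h'))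
    (G := fun h h' => NK (mm N) (SS f) φ c (q * h) (q * h')) (fun h h' => hNK0 _ _)
    (fun h h' => hNK0 _ _)
  have c2 := mean_cs H (F := fun h h' => NC (mm N) C (SS f) φ c (p * h) (p * h') -
    NK (mm N) (SS f) φ c (p * h) (p * h')) (G := fun _ _ => 1) (fun h h' => hD0 _ _)
    (fun h h' => zero_le_one)
  have c3 : √((∑ _h ∈ range H, ∑ _h' ∈ range H, (1 : ℝ)) / (H : ℝ) ^ 2) = 1 := by
    simp only [sum_const, card_range, nsmul_eq_mul, mul_one]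
    rw [← sq, div_self (by positivity), Real.sqrt_one]
  rw [c3, mul_one] at c2
  have c4 : (∑ h ∈ range H, ∑ h' ∈ range H, (NC (mm N) C (SS f) φ c (p * h) (p * h') -
      NK (mm N) (SS f) φ c (p * h) (p * h'))) / (H : ℝ) ^ 2 =
      (∑ h ∈ range H, ∑ h' ∈ range H, NC (mm N) C (SS f) φ c (p * h) (p * h')) / (H : ℝ) ^ 2 -
        (∑ h ∈ range H, ∑ h' ∈ range H, NK (mm N) (SS f) φ c (p * h) (p * h')) / (H : ℝ) ^ 2 := by
    simp only [sum_sub_distrib, sub_div]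
  rw [c4] at c2
  have c5 := mul_le_mul_of_nonneg_left c2 (sq_nonneg B)
  linarith

/-- MLA -/
theorem st_MLA (hMST : ST_MST) (hMHQ : ST_MHQ) (hMTV : ST_MTV) (hMSK : ST_MSK) (hMNK : ST_MNK)
    (hLMF : ST_LMF) : ST_MLA := by
  intro N lev f f' hT hMR hNE d φ c hφ hc ε hε
  have hSt := hMST N lev f f' hT hMR hNE
  have hS : Sys (mm N) (SS f) (SS f') := by
    have := hSt.sys 1
    simpa using this
  have hφm : AEStronglyMeasurable φ (mm N) := aesm_of_ae hφ.1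
  have hcm : AEStronglyMeasurable c (mm N) := hc.aestronglyMeasurable
  obtain ⟨B0, hB0⟩ := isCompact_univ.exists_bound_of_continuousOn hc.continuousOn
  have hB : ∀ x, ‖c x‖ ≤ B0 := fun x => hB0 x (Set.mem_univ x)
  obtain ⟨V, hV⟩ : ∃ V : ℝ, V = B0 ^ 2 := ⟨_, rfl⟩
  have hV0 : 0 ≤ V := by rw [hV]; exact sq_nonneg _
  -- the constants
  obtain ⟨δ, hδ0, hδ⟩ : ∃ δ : ℝ, 0 < δ ∧ V * √δ ≤ ε / 4 := by
    refine ⟨(ε / (4 * (V + 1))) ^ 2, by positivity, ?_⟩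
    rw [Real.sqrt_sq (by positivity)]
    rw [mul_div_assoc', div_le_div_iff₀ (by positivity) (by norm_num)]
    nlinarith
  obtain ⟨ε₁, hε₁, hε₁'⟩ : ∃ ε₁ : ℝ, 0 < ε₁ ∧ ∀ e, 0 ≤ e → e ≤ ε₁ → V * √(e * V ^ 2) ≤ ε / 4 := by
    refine ⟨(ε / (4 * (V ^ 2 + 1))) ^ 2, by positivity, fun e he he' => ?_⟩
    rw [Real.sqrt_mul he, Real.sqrt_sq hV0]
    have h1 : √e ≤ ε / (4 * (V ^ 2 + 1)) := by
      rw [Real.sqrt_le_left (by positivity)]
      exact he'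
    have h2 : V * (√e * V) ≤ V * ((ε / (4 * (V ^ 2 + 1))) * V) := by gcongr
    refine h2.trans ?_
    have h3 : V * ((ε / (4 * (V ^ 2 + 1))) * V) = V ^ 2 * ε / (4 * (V ^ 2 + 1)) := by ring
    rw [h3, div_le_div_iff₀ (by positivity) (by norm_num)]
    nlinarith [sq_nonneg V]
  obtain ⟨p₀, R₀, K, η, hR₀, hη, hmtv⟩ := hMTV (T N) (mm N) (SS f) (SS f') d φ c hSt hφm hφ.2 hcm
    ⟨B0, hB⟩ δ hδ0
  have hε2 : 0 < min η ε₁ := lt_min hη hε₁
  have hE1 : ∀ k k', AEStronglyMeasurable (EE (SS f) φ c k k') (mm N) := ae_aesm hS hφm hcm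
  have hEb : ∀ k k' x, ‖EE (SS f) φ c k k' x‖ ≤ B0 ^ 2 := fun k k' x =>
    Pool.Agent.Helper16.BZ.EE_norm (SS f) φ c hφ.2 B0 hB k k' x
  obtain ⟨q₀, hq₀⟩ := hMHQ N lev f f' hT hMR hNE R₀ (K * K)
    (fun i => EE (SS f) φ c (finProdFinEquiv.symm i).1 (finProdFinEquiv.symm i).2) (min η ε₁) hε2
    (fun i => MemLp.of_bound (hE1 _ _) (B0 ^ 2) (Eventually.of_forall (hEb _ _)))
  refine ⟨max (max p₀ q₀) (R₀ ^ 2 + 1), fun p hp hpp q hq hqp hpq κ hJ => ?_⟩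
  have hp1 : p₀ ≤ p := ((le_max_left _ _).trans (le_max_left _ _)).trans hp
  have hq1 : q₀ ≤ q := ((le_max_right _ _).trans (le_max_left _ _)).trans hq
  have hq2 : R₀ ^ 2 < q := by
    have : R₀ ^ 2 + 1 ≤ q := (le_max_right _ _).trans hq
    omega
  obtain ⟨C, hHQ, hJJ, hG⟩ := hq₀ q hq1 hqp p hpp hpq κ hJ
  have hnk := hMNK (T N) (mm N) (SS f) (SS f') C d φ c hS hHQ.ia hφm hφ.2 hcm ⟨B0, hB⟩
  have hnc := hMSK (T N) (mm N) (SS f) (SS f') C d φ c hS hHQ.ia hφm hφ.2 hcm ⟨B0, hB⟩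
  have hLM : LM (NC (mm N) C (SS f) φ c) p ≤ LM (NK (mm N) (SS f) φ c) p + δ := by
    refine hmtv C p q hp1 hpp hqp hpq hq2 hHQ fun k hk k' hk' => ?_
    rw [(hnk.2 k k').2.2]
    have := hG (finProdFinEquiv (⟨k, hk⟩, ⟨k', hk'⟩))
    simp only [Equiv.symm_apply_apply] at this
    exact this.trans (min_le_left _ _)
  -- the limits
  have l1 := (hLMF _ hnk.1).1 p hpp.one_le
  have l2 := (hLMF _ hnk.1).1 q hqp.one_le
  have l3 := (hLMF _ hnc).1 p hpp.one_le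
  have l4 := (((l1.sqrt).mul (l2.sqrt)).add (tendsto_const_nhds (x :=
    V * √(min η ε₁ * V ^ 2)))).add ((l3.sub l1).sqrt.const_mul V)
  have b1 := hε₁' (min η ε₁) hε2.le (min_le_right _ _)
  have b2 : V * √(LM (NC (mm N) C (SS f) φ c) p - LM (NK (mm N) (SS f) φ c) p) ≤ ε / 4 := by
    refine le_trans (mul_le_mul_of_nonneg_left (Real.sqrt_le_sqrt ?_) hV0) hδ
    linarith
  have l5 := l4.eventually_le_const (u := √(LM (NK (mm N) (SS f) φ c) p) *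
      √(LM (NK (mm N) (SS f) φ c) q) + ε) (by linarith)
  filter_upwards [l5, eventually_ge_atTop 1] with H h5 hH
  refine le_trans ?_ h5
  have := aH_le hJ hS hHQ.ia.1 hε2.le hJJ hφm hφ.2 hcm hB (fun k k' => ⟨(hnk.2 k k').1,
    (hnk.2 k k').2.2⟩) hH
  rw [← hV] at this
  exact this

end Pool.Agent.Helper41.TWM
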