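import Pool.Agent.Helper40.TWM.Stmts
import Pool.Agent.Helper98.TW.Basic

/-!
Sheet TWM (MP_7a8f48_an), row MTV: the masses in the hull are asymptotically the masses of the
constants.
-/

open MeasureTheory Filter Topology Finset
open scoped ComplexConjugate

namespace Pool.Agent.Helper41.TWM

open Pool.Agent.Helper98.TW
open Pool.Agent.Helper40.TWM
open Pool.Agent.Helper16.AZ (T E Op mm)
open Pool.Agent.Helper16.BZ (co Wk EE)
open Pool.Agent.Helper40.DZ (SK)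
open Pool.Agent.Helper40.JZ (LM ST_LMF)

theorem norm_star_unitary {d : ℕ} {A : Op d} (h : A ∈ unitary (Op d)) (v : E d) :
    ‖(star A) v‖ = ‖v‖ := by
  have h1 : star A ∈ unitary (Op d) := Unitary.star_mem h
  have h2 : (inner ℂ ((star A) v) ((star A) v) : ℂ) = inner ℂ v v := by
    have h3 : (inner ℂ ((star A) v) ((star A) v) : ℂ) = inner ℂ (A ((star A) v)) v := by
      rw [ContinuousLinearMap.star_eq_adjoint, ContinuousLinearMap.adjoint_inner_right]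
    have h4 : A ((star A) v) = v := by
      have h5 : A * star A = 1 := Unitary.mul_star_self_of_mem h
      have := congrArg (fun B : Op d => B v) h5
      exact this
    rw [h3, h4]
  have h6 : ‖(star A) v‖ ^ 2 = ‖v‖ ^ 2 := by
    rw [← inner_self_eq_norm_sq (𝕜 := ℂ), ← inner_self_eq_norm_sq (𝕜 := ℂ), h2]
  exact (pow_left_inj₀ (norm_nonneg _) (norm_nonneg _) two_ne_zero).1 h6

/-- MTV -/
theorem st_MTV (hMZD : ST_MZD) (hMAS : ST_MAS) (hMSK : ST_MSK) (hMNK : ST_MNK)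
    (hLMF : ST_LMF) : ST_MTV := by
  intro Ω _ _ μ _ S S' d φ c hSt hφ hu hc hB δ hδ
  have hS : Sys μ S S' := by
    have := hSt.sys 1
    simpa using this
  have hTh : Th μ (fun x => star (φ x)) := by
    refine ⟨?_, fun x v => norm_star_unitary (hu x) v⟩
    exact (ContinuousLinearMap.adjoint : Op d ≃ₗᵢ⋆[ℂ] Op d).continuous.comp_aestronglyMeasurable hφ
  obtain ⟨p₀, hp₀⟩ := hMZD Ω μ (E d) S S' (fun x => star (φ x)) hSt hTh
  have hskK : SK (NK μ S φ c) := (hMNK Ω μ S S' bo d φ c hS (ia_bo hS) hφ hu hc hB).1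
  obtain ⟨h1, -, -, h4, -⟩ := hLMF _ hskK
  -- the constants
  obtain ⟨R₀, hR₀, hR₁⟩ : ∃ R₀ : ℕ, 1 ≤ R₀ ∧ (∫ x, ‖c x‖ ^ 2 ∂μ) ^ 2 / R₀ ≤ δ / 3 := by
    obtain ⟨n, hn⟩ := exists_nat_ge ((∫ x, ‖c x‖ ^ 2 ∂μ) ^ 2 / (δ / 3))
    refine ⟨n + 1, Nat.le_add_left 1 n, ?_⟩
    rw [div_le_iff₀ (by positivity)] at hn ⊢
    push_cast
    nlinarith
  obtain ⟨K, hK, hK1⟩ : ∃ K : ℕ, 1 ≤ K ∧ (∑ k ∈ range K, ∑ k' ∈ range K, NK μ S φ c k k') /
      (K : ℝ) ^ 2 ≤ LM (NK μ S φ c) 1 + δ / 3 := by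
    have h5 := (h1 1 le_rfl).eventually_le_const (u := LM (NK μ S φ c) 1 + δ / 3) (by linarith)
    obtain ⟨K, h6, h7⟩ := (h5.and (eventually_ge_atTop 1)).exists
    simp only [one_mul] at h6
    exact ⟨K, h7, h6⟩
  refine ⟨p₀, R₀, K, δ / 3, hR₀, by positivity, fun C p q hp hpp hqp hpq hq hHQ hη => ?_⟩
  have hmas := hMAS Ω μ S S' C d φ c p q R₀ hSt hφ hu hc hB hpp hqp hpq hR₀ hq hHQ
    (hp₀ p hp hpp)
  have hskC : SK (NC μ C S φ c) := hMSK Ω μ S S' C d φ c hS hHQ.ia hφ hu hc hB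
  obtain ⟨-, -, -, g4, -⟩ := hLMF _ hskC
  have e1 := g4 K hK
  have e2 : (∑ k ∈ range K, ∑ k' ∈ range K, NC μ C S φ c k k') / (K : ℝ) ^ 2 ≤
      (∑ k ∈ range K, ∑ k' ∈ range K, NK μ S φ c k k') / (K : ℝ) ^ 2 + δ / 3 := by
    have hK0 : (0 : ℝ) < K := by exact_mod_cast hK
    have e3 : ∑ k ∈ range K, ∑ k' ∈ range K, NC μ C S φ c k k' ≤
        ∑ k ∈ range K, ∑ k' ∈ range K, (NK μ S φ c k k' + δ / 3) := by
      refine sum_le_sum fun k hk => sum_le_sum fun k' hk' => ?_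
      have := hη k (mem_range.1 hk) k' (mem_range.1 hk')
      linarith
    have e4 : ∑ k ∈ range K, ∑ k' ∈ range K, (NK μ S φ c k k' + δ / 3) =
        ∑ k ∈ range K, ∑ k' ∈ range K, NK μ S φ c k k' + (K : ℝ) ^ 2 * (δ / 3) := by
      simp only [sum_add_distrib, sum_const, card_range, nsmul_eq_mul]
      ring
    rw [e4] at e3
    rw [div_add' _ _ _ (by positivity), div_le_div_iff_of_pos_right (by positivity)]
    linarith
  have e5 : LM (NK μ S φ c) 1 ≤ LM (NK μ S φ c) p := by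
    obtain ⟨-, g2, -, -, -⟩ := hLMF _ hskK
    have := g2 1 p le_rfl hpp.one_le
    rwa [one_mul] at this
  linarith

end Pool.Agent.Helper41.TWM
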